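import Pool.Agent.Helper335.ModHyp.Final

/-! # MP_24547c_co: all supersolvable matroids and all supersolvable blocks

Let `M` be a finite simple supersolvable matroid (no representability is assumed) and let `m ≥ 1`
be an integer such that `p(M; x) ≤ 0` for some real `x ≥ m`. Then `M` has a restriction with at most
`m (m + 1) / 2` elements which is isomorphic to the simplification of a quotient of `M(K_{m+1})` and
whose characteristic polynomial vanishes at `m`. Over a finite field with `q` elements: a
supersolvable matroid is a `k`-block if and only if it has a restriction which is a `k`-block and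
the simplification of a quotient of `M(K_{q^k+1})`. This contains the negative answer to Whittle's
question (every supersolvable tangential block is normal). -/

namespace Pool.Agent.Results.MP_24547c_co.SupersolvableBlocks

open Set Polynomial Pool.Agent.Helper236 Pool.Agent.Helper335.ModHyp

universe u

/-- `M` is a `k`-block over the finite field `F`: a finite simple matroid, representable over `F`,
whose critical exponent is larger than `k`. -/
def IsBlock (F : Type) [Field F] (k : ℕ) {α : Type u} (M : Matroid α) : Prop :=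
  M.Finite ∧ IsSimple M ∧ Representable F M ∧ (k : ℕ∞) < critExp M (Nat.card F)

/-- `M` is a tangential `k`-block over `F`: it is a `k`-block and no proper minor of `M` is a
(simple) `k`-block. -/
def IsTangentialBlock (F : Type) [Field F] (k : ℕ) {α : Type u} (M : Matroid α) : Prop :=
  IsBlock F k M ∧ ∀ N : Matroid α, N.IsMinor M → N ≠ M → ¬ IsBlock F k N

theorem isBlock_restrict {F : Type} [Field F] {k : ℕ} {α : Type u} {M : Matroid α}
    (hfin : M.Finite) (hs : IsSimple M) (hrep : Representable F M) {Y : Set α} (hY : Y ⊆ M.E)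
    (hk : (k : ℕ∞) < critExp (M.restrict Y) (Nat.card F)) : IsBlock F k (M.restrict Y) := by
  obtain ⟨n, v, hv⟩ := exists_rep hrep
  exact ⟨⟨M.ground_finite.subset hY⟩, isSimple_restrict hs hY, ⟨n, v, rep_restrict hv hY⟩, hk⟩

theorem block_iff_normal (F : Type) [Field F] [Finite F] (k : ℕ) {α : Type u} (M : Matroid α)
    (hfin : M.Finite) (hs : IsSimple M) (hrep : Representable F M)
    (hG : ∃ G, IsModularChain M G) :
    IsBlock F k M ↔ ∃ Y ⊆ M.E, Y.ncard ≤ ((Nat.card F) ^ k + 1).choose 2 ∧
      IsNormal (Nat.card F) k (M.restrict Y) ∧ IsBlock F k (M.restrict Y) := by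
  obtain ⟨n, v, hv⟩ := exists_rep hrep
  constructor
  · rintro ⟨-, -, -, hk⟩
    obtain ⟨G, hG⟩ := hG
    have h1 := (block_iff hv k).1 hk
    have hm : 1 ≤ (Nat.card F) ^ k := Nat.one_le_pow _ _ Nat.card_pos
    have h2 : Polynomial.aeval ((((Nat.card F) ^ k : ℕ) : ℝ)) (charPoly M) ≤ 0 := by
      have h3 := Polynomial.aeval_algebraMap_apply ℝ ((((Nat.card F) ^ k : ℕ) : ℤ)) (charPoly M)
      have h4 : algebraMap ℤ ℝ ((((Nat.card F) ^ k : ℕ) : ℤ)) =
          ((((Nat.card F) ^ k : ℕ) : ℝ)) := by
        simp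
      rw [h4] at h3
      rw [h3]
      have h5 : Polynomial.aeval ((((Nat.card F) ^ k : ℕ) : ℤ)) (charPoly M) = 0 := by
        rw [Polynomial.coe_aeval_eq_eval]
        exact h1
      rw [h5]
      simp
    obtain ⟨Y, hYE, hY1, hY2, hY3⟩ := chain_restriction_of_real M hs hG hm le_rfl h2
    have hfinY : (M.restrict Y).Finite := ⟨M.ground_finite.subset hYE⟩
    refine ⟨Y, hYE, hY3, hY1, isBlock_restrict hfin hs hrep hYE ?_⟩
    rw [block_iff (rep_restrict hv hYE)]
    exact hY2
  · rintro ⟨Y, hYE, -, -, -, -, -, hk⟩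
    have hfinY : (M.restrict Y).Finite := ⟨M.ground_finite.subset hYE⟩
    refine ⟨hfin, hs, hrep, ?_⟩
    rw [lt_critExp_iff (rep_restrict hv hYE)] at hk
    rw [lt_critExp_iff hv]
    intro f
    obtain ⟨e, he, hfe⟩ := hk f
    exact ⟨e, hYE he, hfe⟩

/-- **Supersolvable matroids and blocks.** -/
theorem result :
    -- (1) all simple supersolvable matroids, representable or not
    (∀ {α : Type u} (M : Matroid α), M.Finite → IsSimple M → (∃ G, IsModularChain M G) →
      ∀ (m : ℕ) (x : ℝ), 1 ≤ m → (m : ℝ) ≤ x → aeval x (charPoly M) ≤ 0 →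
        ∃ Y ⊆ M.E, Y.ncard ≤ (m + 1).choose 2 ∧ NormalAt m (M.restrict Y) ∧
          (charPoly (M.restrict Y)).eval (m : ℤ) = 0) ∧
    -- (2) supersolvable matroids over a finite field
    (∀ (F : Type) [Field F] [Finite F] (k : ℕ) {α : Type u} (M : Matroid α),
      M.Finite → IsSimple M → Representable F M → (∃ G, IsModularChain M G) →
      (IsBlock F k M ↔ ∃ Y ⊆ M.E, Y.ncard ≤ ((Nat.card F) ^ k + 1).choose 2 ∧
        IsNormal (Nat.card F) k (M.restrict Y) ∧ IsBlock F k (M.restrict Y))) ∧
    -- (3) the answer to Q1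
    (∀ (F : Type) [Field F] [Finite F] (k : ℕ) {α : Type u} (M : Matroid α),
      IsTangentialBlock F k M → (∃ G, IsModularChain M G) → IsNormal (Nat.card F) k M) := by
  have hthree : ∀ (F : Type) [Field F] [Finite F] (k : ℕ) {α : Type u} (M : Matroid α),
      IsBlock F k M → (∀ Y, Y ⊂ M.E → ¬ IsBlock F k (M.restrict Y)) →
      (∃ G, IsModularChain M G) → IsNormal (Nat.card F) k M := by
    intro F _ _ k α M hM hmin hG
    obtain ⟨hfin, hs, hrep, hk⟩ := hM
    obtain ⟨Y, hYE, -, hY1, hY2⟩ := (block_iff_normal F k M hfin hs hrep hG).1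
      ⟨hfin, hs, hrep, hk⟩
    have hYeq : Y = M.E := by
      by_contra hne
      exact hmin Y (lt_of_le_of_ne hYE hne) hY2
    rw [hYeq, Matroid.restrict_ground_eq_self] at hY1
    exact hY1
  refine ⟨?_, ?_, ?_⟩
  · intro α M hfin hs hG m x hm hx hp
    obtain ⟨G, hG⟩ := hG
    obtain ⟨Y, h1, h2, h3, h4⟩ := chain_restriction_of_real M hs hG hm hx hp
    exact ⟨Y, h1, h4, h2, h3⟩
  · intro F _ _ k α M hfin hs hrep hG
    exact block_iff_normal F k M hfin hs hrep hG
  · intro F _ _ k α M hM hG
    refine hthree F k M hM.1 (fun Y hY => ?_) hG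
    have hminor : (M.restrict Y).IsMinor M := by
      refine ⟨∅, M.E \ Y, ?_⟩
      rw [Matroid.contract_empty, Matroid.delete_eq_restrict, Set.sdiff_sdiff_cancel_left hY.1]
    refine hM.2 (M.restrict Y) hminor ?_
    intro heq
    have : (M.restrict Y).E = M.E := by rw [heq]
    rw [Matroid.restrict_ground_eq] at this
    exact hY.2 this.ge

end Pool.Agent.Results.MP_24547c_co.SupersolvableBlocks
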